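import Pool.Agent.H11ST.St
open MeasureTheory Metric Set Filter Topology
open scoped ENNReal NNReal

/-!
# The flux and the growth of a locally minimal set at a good radius

`core`: the row `ST_CORE`.
-/

set_option autoImplicit false
set_option linter.unusedSectionVars false

namespace Pool.Agent.Helper73.ST

open H11ST

variable {V : Type*} [NormedAddCommGroup V] [InnerProductSpace ℝ V] [MeasurableSpace V]
  [BorelSpace V]

theorem lin_dist {S : Set V} {z u : V} {ε s : ℝ} (L : Lin S z u ε) :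
    dist (z + s • u) z = |s| := by
  rw [dist_eq_norm]
  simp [norm_smul, L.unit]

theorem lin_mono {S : Set V} {z u : V} {ε ε' : ℝ} (L : Lin S z u ε) (h0 : 0 < ε')
    (h : ε' ≤ ε) : Lin S z u ε' := by
  refine ⟨h0, L.unit, ?_⟩
  ext w
  constructor
  · rintro ⟨hw, hb⟩
    have : w ∈ S ∩ ball z ε := ⟨hw, ball_subset_ball h hb⟩
    rw [L.eq] at this
    obtain ⟨s, hs, rfl⟩ := this
    rw [mem_ball, lin_dist L] at hb
    exact ⟨s, hb, rfl⟩
  · rintro ⟨s, hs, rfl⟩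
    have : z + s • u ∈ S ∩ ball z ε := by
      rw [L.eq]
      exact ⟨s, lt_of_lt_of_le hs h, rfl⟩
    refine ⟨this.1, ?_⟩
    rw [mem_ball, lin_dist L]
    exact hs

theorem lin_mem {S : Set V} {z u : V} {ε s : ℝ} (L : Lin S z u ε) (hs : |s| < ε) :
    z + s • u ∈ S := by
  have : z + s • u ∈ S ∩ ball z ε := by
    rw [L.eq]
    exact ⟨s, hs, rfl⟩
  exact this.1

theorem nsq {x p u : V} {ρ₀ s : ℝ} (hp : p ∈ sphere x ρ₀) (hu : ‖u‖ = 1) :
    dist (p + s • u) x ^ 2 = ρ₀ ^ 2 + 2 * s * inner ℝ u (p - x) + s ^ 2 := by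
  have h1 : ‖p - x‖ = ρ₀ := by rw [← dist_eq_norm]; exact hp
  have e : p + s • u - x = (p - x) + s • u := by abel
  rw [dist_eq_norm, e, norm_add_sq_real, h1, norm_smul, hu, inner_smul_right, real_inner_comm]
  simp only [Real.norm_eq_abs, mul_one, sq_abs]
  ring

/-- the configuration at a good radius with a common radius `e` -/
structure Cf (S : Set V) (x : V) (ρ₀ : ℝ) (P : Finset V) (u : V → V) (e : ℝ) : Prop where
  e0 : 0 < e
  r0 : 0 < ρ₀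
  mem : ∀ p, p ∈ P ↔ p ∈ S ∩ sphere x ρ₀
  lin : ∀ p ∈ P, Lin S p (u p) e
  ec : ∀ p ∈ P, e ≤ inner ℝ (u p) (p - x)
  sep : ∀ p ∈ P, ∀ q ∈ P, p ≠ q → 2 * e ≤ dist p q

theorem cf_exists {S : Set V} {x : V} {ρ₀ : ℝ} (h0 : 0 < ρ₀) {P : Finset V}
    (hP : ∀ p, p ∈ P ↔ p ∈ S ∩ sphere x ρ₀) {u : V → V}
    (hl : ∀ p ∈ P, ∃ ε, Lin S p (u p) ε) (hc : ∀ p ∈ P, 0 < inner ℝ (u p) (p - x)) :
    ∃ e, Cf S x ρ₀ P u e := by
  classical
  choose! ε hε using hl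
  have e1 : ∀ᶠ e : ℝ in 𝓝[>] 0, ∀ p ∈ P, e ≤ ε p ∧ e ≤ inner ℝ (u p) (p - x) := by
    rw [Filter.eventually_all_finset]
    intro p hp
    have hm : 0 < min (ε p) (inner ℝ (u p) (p - x)) := lt_min (hε p hp).pos (hc p hp)
    filter_upwards [Ioo_mem_nhdsGT hm] with e he
    exact ⟨he.2.le.trans (min_le_left _ _), he.2.le.trans (min_le_right _ _)⟩
  have e2 : ∀ᶠ e : ℝ in 𝓝[>] 0, ∀ p ∈ P, ∀ q ∈ P, p ≠ q → 2 * e ≤ dist p q := by
    rw [Filter.eventually_all_finset]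
    intro p _
    rw [Filter.eventually_all_finset]
    intro q _
    by_cases hpq : p = q
    · exact Eventually.of_forall fun _ h => absurd hpq h
    · have hm : 0 < dist p q / 2 := half_pos (dist_pos.2 hpq)
      filter_upwards [Ioo_mem_nhdsGT hm] with e he _
      linarith [he.2]
  have e3 : ∀ᶠ e : ℝ in 𝓝[>] 0, 0 < e := eventually_mem_nhdsWithin
  obtain ⟨e, h1, h2, h3⟩ := (e1.and (e2.and e3)).exists
  exact ⟨e, h3, h0, hP, fun p hp => lin_mono (hε p hp) h3 (h1 p hp).1, fun p hp => (h1 p hp).2, h2⟩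

namespace Cf

variable {S A : Set V} {x : V} {ρ₀ ρ r : ℝ} {P : Finset V} {u : V → V} {e : ℝ}

/-- near the sphere all points of `S` are near `P` -/
theorem near [ProperSpace V] (C : Cf S x ρ₀ P u e) (hS : IsClosed S) (hr : ρ₀ < r) :
    ∃ δ > 0, ∀ z ∈ S, |dist z x - ρ₀| < δ → ∃ p ∈ P, z ∈ ball p e := by
  set r' := (ρ₀ + r) / 2 with hr'
  set K := (S ∩ closedBall x r') \ ⋃ p ∈ P, ball p e with hK
  have hKc : IsCompact K :=
    ((isCompact_closedBall x r').inter_left hS).diff (isOpen_biUnion fun p _ => isOpen_ball)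
  obtain ⟨δ, hδ, h⟩ := hKc.exists_forall_le' (f := fun z => |dist z x - ρ₀|) (a := 0)
    (Continuous.continuousOn (by fun_prop)) (fun z hz => by
      rw [abs_pos]
      intro h0
      have hzP : z ∈ P := (C.mem z).2 ⟨hz.1.1, by rw [mem_sphere]; linarith⟩
      exact hz.2 (mem_biUnion hzP (mem_ball_self C.e0)))
  refine ⟨min δ (r' - ρ₀), lt_min hδ (by rw [hr']; linarith), fun z hz hzd => ?_⟩
  by_contra hcon
  push Not at hcon
  have h1 : z ∈ closedBall x r' := by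
    rw [mem_closedBall]
    have := (abs_lt.1 (hzd.trans_le (min_le_right _ _))).2
    linarith
  have h2 := h z ⟨⟨hz, h1⟩, fun hh => by
    simp only [mem_iUnion] at hh
    obtain ⟨p, hp, hb⟩ := hh
    exact hcon p hp hb⟩
  exact absurd (hzd.trans_le (min_le_left _ _)) (not_lt.2 h2)

/-- the length of the piece at `p` up to the radius `ρ` -/
noncomputable def _root_.Pool.Agent.Helper73.ST.al (x : V) (ρ₀ ρ : ℝ) (u : V → V) (p : V) : ℝ :=
  -inner ℝ (u p) (p - x) + √(inner ℝ (u p) (p - x) ^ 2 + (ρ ^ 2 - ρ₀ ^ 2))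

theorem al_eq (C : Cf S x ρ₀ P u e) (hρ : ρ₀ < ρ) (p : V) :
    al x ρ₀ ρ u p ^ 2 + 2 * al x ρ₀ ρ u p * inner ℝ (u p) (p - x) = ρ ^ 2 - ρ₀ ^ 2 := by
  have hD : 0 ≤ inner ℝ (u p) (p - x) ^ 2 + (ρ ^ 2 - ρ₀ ^ 2) := by
    have := C.r0
    nlinarith [sq_nonneg (inner ℝ (u p) (p - x))]
  have := Real.sq_sqrt hD
  unfold al
  linear_combination this

theorem al_pos (C : Cf S x ρ₀ P u e) (hρ : ρ₀ < ρ) {p : V} (hp : p ∈ P) :
    0 < al x ρ₀ ρ u p := by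
  have hc := C.e0.trans_le (C.ec p hp)
  have : inner ℝ (u p) (p - x) < √(inner ℝ (u p) (p - x) ^ 2 + (ρ ^ 2 - ρ₀ ^ 2)) := by
    refine Real.lt_sqrt_of_sq_lt ?_
    have := C.r0
    nlinarith
  unfold al
  linarith

theorem al_lt (C : Cf S x ρ₀ P u e) (hρ : ρ₀ < ρ) (hD : ρ ^ 2 - ρ₀ ^ 2 < 2 * e ^ 2) {p : V}
    (hp : p ∈ P) : al x ρ₀ ρ u p < e := by
  have h1 := C.al_eq hρ p
  have h2 := C.al_pos hρ hp
  have h3 := C.ec p hp
  have h4 := C.e0
  by_contra hcon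
  push Not at hcon
  nlinarith [mul_le_mul_of_nonneg_left h3 h2.le, sq_nonneg (al x ρ₀ ρ u p - e)]

/-- distance to `x` along a piece -/
theorem dist_piece (C : Cf S x ρ₀ P u e) {p : V} (hp : p ∈ P) (s : ℝ) :
    dist (p + s • u p) x ^ 2 = ρ₀ ^ 2 + 2 * s * inner ℝ (u p) (p - x) + s ^ 2 :=
  nsq ((C.mem p).1 hp).2 (C.lin p hp).unit

theorem piece_ge (C : Cf S x ρ₀ P u e) {p : V} (hp : p ∈ P) {s : ℝ} (hs : 0 ≤ s) :
    ρ₀ ≤ dist (p + s • u p) x := by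
  have h1 := C.dist_piece hp s
  have hc := C.e0.trans_le (C.ec p hp)
  have h2 : ρ₀ ^ 2 ≤ dist (p + s • u p) x ^ 2 := by
    rw [h1]
    nlinarith [mul_nonneg hs hc.le, sq_nonneg s]
  exact le_of_sq_le_sq h2 dist_nonneg

theorem piece_gt (C : Cf S x ρ₀ P u e) {p : V} (hp : p ∈ P) {s : ℝ} (hs : 0 < s) :
    ρ₀ < dist (p + s • u p) x := by
  have h1 := C.dist_piece hp s
  have hc := C.e0.trans_le (C.ec p hp)
  have h2 : ρ₀ ^ 2 < dist (p + s • u p) x ^ 2 := by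
    rw [h1]
    nlinarith [mul_pos hs hc, sq_nonneg s]
  exact lt_of_pow_lt_pow_left₀ 2 dist_nonneg h2

theorem piece_lt (C : Cf S x ρ₀ P u e) (hρ : ρ₀ < ρ) {p : V} (hp : p ∈ P) {s : ℝ} (hs : 0 ≤ s)
    (h : s < al x ρ₀ ρ u p) : dist (p + s • u p) x < ρ := by
  have h1 := C.dist_piece hp s
  have h3 := C.al_eq hρ p
  have hc := C.e0.trans_le (C.ec p hp)
  have hr := C.r0
  have h2 : dist (p + s • u p) x ^ 2 < ρ ^ 2 := by
    rw [h1]
    nlinarith [mul_lt_mul_of_pos_right h hc]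
  exact lt_of_pow_lt_pow_left₀ 2 (by linarith) h2

theorem piece_end (C : Cf S x ρ₀ P u e) (hρ : ρ₀ < ρ) {p : V} (hp : p ∈ P) :
    dist (p + al x ρ₀ ρ u p • u p) x = ρ := by
  have h1 := C.dist_piece hp (al x ρ₀ ρ u p)
  have h3 := C.al_eq hρ p
  have hr := C.r0
  have h2 : dist (p + al x ρ₀ ρ u p • u p) x ^ 2 = ρ ^ 2 := by
    rw [h1]
    linarith
  exact (pow_left_inj₀ dist_nonneg (by linarith) two_ne_zero).1 h2

/-- the points of `S` between the two spheres -/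
theorem cover (C : Cf S x ρ₀ P u e) (hρ : ρ₀ < ρ)
    (hn : ∀ z ∈ S, |dist z x - ρ₀| ≤ ρ - ρ₀ → ∃ p ∈ P, z ∈ ball p e) {z : V} (hz : z ∈ S)
    (h1 : ρ₀ ≤ dist z x) (h2 : dist z x ≤ ρ) :
    ∃ p ∈ P, ∃ s, 0 ≤ s ∧ s ≤ al x ρ₀ ρ u p ∧ z = p + s • u p := by
  obtain ⟨p, hp, hb⟩ := hn z hz (by rw [abs_of_nonneg (by linarith)]; linarith)
  have : z ∈ S ∩ ball p e := ⟨hz, hb⟩
  rw [(C.lin p hp).eq] at this
  obtain ⟨s, hs, rfl⟩ := this
  have hc := C.ec p hp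
  have he := C.e0
  have hr := C.r0
  have h3 := C.dist_piece hp s
  have h4 := C.al_eq hρ p
  have h5 := C.al_pos hρ hp
  have hs1 := (abs_lt.1 hs).1
  have hs0 : 0 ≤ s := by
    by_contra hcon
    push Not at hcon
    have h6 : ρ₀ ^ 2 ≤ dist (p + s • u p) x ^ 2 := by nlinarith
    nlinarith
  refine ⟨p, hp, s, hs0, ?_, rfl⟩
  by_contra hcon
  push Not at hcon
  have h6 : dist (p + s • u p) x ^ 2 ≤ ρ ^ 2 := by
    have := dist_nonneg (x := p + s • u p) (y := x)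
    nlinarith
  nlinarith

/-- the measure of the pieces -/
theorem grow0 (C : Cf S x ρ₀ P u e) (hS : IsClosed S) (hρ : ρ₀ < ρ)
    (ha : ∀ p ∈ P, al x ρ₀ ρ u p < e) :
    μH[1] (S ∩ ball x ρ₀) + ∑ p ∈ P, ENNReal.ofReal (al x ρ₀ ρ u p) ≤ μH[1] (S ∩ ball x ρ) := by
  classical
  have := Measure.nullSingletonClass_hausdorff V (d := 1) one_pos
  set J : V → Set V := fun p => (S ∩ ball p e) ∩ (ball x ρ \ ball x ρ₀) with hJ
  have hm : ∀ p, MeasurableSet (J p) := fun p =>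
    (hS.measurableSet.inter measurableSet_ball).inter (measurableSet_ball.diff measurableSet_ball)
  have hd : (P : Set V).PairwiseDisjoint J := by
    intro p hp q hq hpq
    refine disjoint_left.2 fun z hz hz' => ?_
    have h1 := mem_ball.1 hz.1.2
    have h2 := mem_ball.1 hz'.1.2
    have h3 := C.sep p hp q hq hpq
    have h4 := dist_triangle_left p q z
    linarith
  have hJl : ∀ p ∈ P, ENNReal.ofReal (al x ρ₀ ρ u p) ≤ μH[1] (J p) := by
    intro p hp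
    have h0 := C.al_pos hρ hp
    have h1 : segment ℝ p (p + al x ρ₀ ρ u p • u p) ⊆ J p ∪ {p + al x ρ₀ ρ u p • u p} := by
      have h2 := seg_sub_arm p (u p) (a := 0) (b := al x ρ₀ ρ u p) h0.le
      rw [zero_smul, add_zero] at h2
      intro z hz
      obtain ⟨s, ⟨s0, s1⟩, rfl⟩ := h2 hz
      rcases eq_or_lt_of_le s1 with h3 | h3
      · right
        rw [← h3]
        rfl
      · left
        have hs : |s| < e := by
          rw [abs_of_nonneg s0]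
          exact h3.trans (ha p hp)
        refine ⟨⟨lin_mem (C.lin p hp) hs, ?_⟩, ?_, ?_⟩
        · show p + s • u p ∈ ball p e
          rw [mem_ball, lin_dist (C.lin p hp)]
          exact hs
        · exact C.piece_lt hρ hp s0 h3
        · intro hh
          exact absurd (mem_ball.1 hh) (not_lt.2 (C.piece_ge hp s0))
    have h4 : edist p (p + al x ρ₀ ρ u p • u p) = ENNReal.ofReal (al x ρ₀ ρ u p) := by
      rw [edist_dist, dist_comm, lin_dist (C.lin p hp), abs_of_pos h0]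
    rw [← h4, ← hausdorffMeasure_segment]
    refine (measure_mono h1).trans ((measure_union_le _ _).trans ?_)
    rw [measure_singleton, add_zero]
  have h5 : ∑ p ∈ P, ENNReal.ofReal (al x ρ₀ ρ u p) ≤ μH[1] (S ∩ (ball x ρ \ ball x ρ₀)) := by
    calc ∑ p ∈ P, ENNReal.ofReal (al x ρ₀ ρ u p) ≤ ∑ p ∈ P, μH[1] (J p) :=
          Finset.sum_le_sum hJl
      _ = μH[1] (⋃ p ∈ P, J p) := (measure_biUnion_finset hd fun p _ => hm p).symm
      _ ≤ _ := by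
          refine measure_mono ?_
          intro z hz
          simp only [mem_iUnion] at hz
          obtain ⟨p, _, hz⟩ := hz
          exact ⟨hz.1.1, hz.2⟩
  refine (add_le_add_right h5 _).trans ?_
  rw [← measure_union' (μ := μH[1]) _ (hS.measurableSet.inter measurableSet_ball)]
  · refine measure_mono ?_
    rintro z (h | h)
    · exact ⟨h.1, ball_subset_ball hρ.le h.2⟩
    · exact ⟨h.1, h.2.1⟩
  · rw [disjoint_left]
    rintro z h h'
    exact h'.2.2 h.2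

theorem grow (C : Cf S x ρ₀ P u e) (L : LocAdm A S x r) (hρ : ρ₀ < ρ) (hr : ρ ≤ r)
    (ha : ∀ p ∈ P, al x ρ₀ ρ u p < e) :
    len S x ρ₀ + ∑ p ∈ P, al x ρ₀ ρ u p ≤ len S x ρ := by
  have h1 := C.grow0 L.hS hρ ha
  have hfa : μH[1] (S ∩ ball x ρ₀) ≠ ∞ := L.len_fin (hρ.le.trans hr)
  have hfb : μH[1] (S ∩ ball x ρ) ≠ ∞ := L.len_fin hr
  have h4 := (ENNReal.toReal_le_toReal (ne_top_of_le_ne_top hfb h1) hfb).2 h1
  have hs : ∑ p ∈ P, ENNReal.ofReal (al x ρ₀ ρ u p) =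
      ENNReal.ofReal (∑ p ∈ P, al x ρ₀ ρ u p) :=
    (ENNReal.ofReal_sum_of_nonneg fun p hp => (C.al_pos hρ hp).le).symm
  rw [hs, ENNReal.toReal_add hfa ENNReal.ofReal_ne_top, ENNReal.toReal_ofReal
    (Finset.sum_nonneg fun p hp => (C.al_pos hρ hp).le)] at h4
  exact h4

/-- the homothety -/
def _root_.Pool.Agent.Helper73.ST.hm (x : V) (lam : ℝ) (z : V) : V := x + lam • (z - x)

theorem _root_.Pool.Agent.Helper73.ST.hm_cont (x : V) (lam : ℝ) : Continuous (hm x lam) := by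
  unfold hm
  fun_prop

theorem _root_.Pool.Agent.Helper73.ST.hm_lip (x : V) {lam : ℝ} (h : 0 ≤ lam) :
    LipschitzWith (Real.toNNReal lam) (hm x lam) := by
  refine LipschitzWith.of_dist_le_mul fun y z => ?_
  rw [Real.coe_toNNReal _ h, dist_eq_norm, dist_eq_norm]
  have : hm x lam y - hm x lam z = lam • (y - z) := by
    unfold hm
    rw [smul_sub, smul_sub, smul_sub]
    abel
  rw [this, norm_smul, Real.norm_of_nonneg h]

theorem _root_.Pool.Agent.Helper73.ST.hm_dist (x : V) {lam : ℝ} (h : 0 ≤ lam) (z : V) :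
    dist (hm x lam z) x = lam * dist z x := by
  rw [dist_eq_norm, dist_eq_norm]
  have : hm x lam z - x = lam • (z - x) := by
    unfold hm
    abel
  rw [this, norm_smul, Real.norm_of_nonneg h]

/-- end point of a piece -/
noncomputable def _root_.Pool.Agent.Helper73.ST.pe (x : V) (ρ₀ ρ : ℝ) (u : V → V) (p : V) : V :=
  p + al x ρ₀ ρ u p • u p

/-- the competitor -/
noncomputable def _root_.Pool.Agent.Helper73.ST.TT (S : Set V) (x : V) (ρ₀ ρ : ℝ) (P : Finset V)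
    (u : V → V) (lam : ℝ) : Set V :=
  (S \ ball x ρ) ∪ (hm x lam '' (S ∩ closedBall x ρ₀)
    ∪ ⋃ p ∈ P, segment ℝ (hm x lam p) (pe x ρ₀ ρ u p))

theorem _root_.Pool.Agent.Helper73.ST.seg_compact (a b : V) : IsCompact (segment ℝ a b) := by
  rw [segment_eq_image_lineMap]
  exact isCompact_Icc.image (by fun_prop)

theorem tt_sub (C : Cf S x ρ₀ P u e) (hρ : ρ₀ < ρ) {lam : ℝ} (h0 : 0 ≤ lam)
    (h1 : lam * ρ₀ ≤ ρ) : (hm x lam '' (S ∩ closedBall x ρ₀)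
      ∪ ⋃ p ∈ P, segment ℝ (hm x lam p) (pe x ρ₀ ρ u p)) ⊆ closedBall x ρ := by
  have hh : ∀ z ∈ S ∩ closedBall x ρ₀, hm x lam z ∈ closedBall x ρ := fun z hz => by
    rw [mem_closedBall, hm_dist x h0]
    exact (mul_le_mul_of_nonneg_left (mem_closedBall.1 hz.2) h0).trans h1
  rintro z (⟨w, hw, rfl⟩ | hz)
  · exact hh w hw
  · simp only [mem_iUnion] at hz
    obtain ⟨p, hp, hz⟩ := hz
    refine (convex_closedBall x ρ).segment_subset (hh p ?_) ?_ hz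
    · exact ⟨((C.mem p).1 hp).1, sphere_subset_closedBall ((C.mem p).1 hp).2⟩
    · rw [mem_closedBall]
      exact (C.piece_end hρ hp).le

theorem tt_closed [ProperSpace V] (hS : IsClosed S) (lam : ℝ) :
    IsClosed (TT S x ρ₀ ρ P u lam) := by
  refine (hS.sdiff isOpen_ball).union (IsClosed.union ?_ ?_)
  · exact (((isCompact_closedBall x ρ₀).inter_left hS).image (hm_cont x lam)).isClosed
  · exact Set.Finite.isClosed_biUnion P.finite_toSet fun p _ => (seg_compact _ _).isClosed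

theorem tt_out (C : Cf S x ρ₀ P u e) (hρ : ρ₀ < ρ) (hr : ρ < r) {lam : ℝ} (h0 : 0 ≤ lam)
    (h1 : lam * ρ₀ ≤ ρ) : TT S x ρ₀ ρ P u lam \ ball x r = S \ ball x r := by
  have hcr : closedBall x ρ ⊆ ball x r := closedBall_subset_ball hr
  ext z
  constructor
  · rintro ⟨h | h, h'⟩
    · exact ⟨h.1, h'⟩
    · exact absurd (hcr (C.tt_sub hρ h0 h1 h)) h'
  · rintro ⟨h, h'⟩
    exact ⟨Or.inl ⟨h, fun hh => h' (ball_subset_ball hr.le hh)⟩, h'⟩

/-- the set `Z` of the proof of connectedness -/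
noncomputable def _root_.Pool.Agent.Helper73.ST.ZZ (S A : Set V) (x : V) (ρ₀ ρ : ℝ)
    (P : Finset V) (u : V → V) (lam : ℝ) (t : Set V) : Set V :=
  ((S ∩ closedBall x ρ₀) ∩ hm x lam ⁻¹' t) ∪ ((((S ∪ A) \ ball x ρ) ∩ t)
    ∪ {z | ∃ p ∈ P, hm x lam p ∈ t ∧ z ∈ arm p (u p) 0 (al x ρ₀ ρ u p)})

theorem zz_closed (hS : IsClosed S) (hA : IsClosed A) (lam : ℝ) {t : Set V} (ht : IsClosed t) :
    IsClosed (ZZ S A x ρ₀ ρ P u lam t) := by
  classical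
  refine IsClosed.union ((hS.inter isClosed_closedBall).inter (ht.preimage (hm_cont x lam)))
    ((((hS.union hA).sdiff isOpen_ball).inter ht).union ?_)
  have : {z | ∃ p ∈ P, hm x lam p ∈ t ∧ z ∈ arm p (u p) 0 (al x ρ₀ ρ u p)} =
      ⋃ p ∈ P.filter (fun p => hm x lam p ∈ t), arm p (u p) 0 (al x ρ₀ ρ u p) := by
    ext z
    simp only [mem_setOf_eq, mem_iUnion, Finset.mem_filter, exists_prop]
    constructor
    · rintro ⟨p, h1, h2, h3⟩
      exact ⟨p, ⟨h1, h2⟩, h3⟩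
    · rintro ⟨p, ⟨h1, h2⟩, h3⟩
      exact ⟨p, h1, h2, h3⟩
  rw [this]
  exact Set.Finite.isClosed_biUnion (Finset.finite_toSet _) fun p _ => arm_closed _ _ _ _

/-- a connected set in `t ∪ t'` cannot meet both -/
theorem _root_.Pool.Agent.Helper73.ST.no_cross {I Y t t' : Set V} (hI : IsPreconnected I)
    (ht : IsClosed t) (ht' : IsClosed t') (hIY : I ⊆ Y) (hcov : Y ⊆ t ∪ t')
    (hem : ∀ z ∈ Y, z ∈ t → z ∈ t' → False) {a b : V} (ha : a ∈ I) (hat : a ∈ t) (hb : b ∈ I)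
    (hbt : b ∈ t') : False := by
  obtain ⟨w, hw⟩ := isPreconnected_closed_iff.1 hI t t' ht ht' (hIY.trans hcov) ⟨a, ha, hat⟩
    ⟨b, hb, hbt⟩
  exact hem w (hIY hw.1) hw.2.1 hw.2.2

theorem seg_pre (a b : V) : IsPreconnected (segment ℝ a b) := (convex_segment a b).isPreconnected

/-- **the competitor is connected** -/
theorem tt_conn (C : Cf S x ρ₀ P u e) (L : LocAdm A S x r) (hA : IsClosed A) (hne : P.Nonempty)
    (hρ : ρ₀ < ρ) (hr : ρ < r) (ha : ∀ p ∈ P, al x ρ₀ ρ u p < e)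
    (hn : ∀ z ∈ S, |dist z x - ρ₀| ≤ ρ - ρ₀ → ∃ p ∈ P, z ∈ ball p e) {lam : ℝ} :
    IsConnected (TT S x ρ₀ ρ P u lam ∪ A) := by
  have hX : IsClosed (S ∪ A) := L.hS.union hA
  have hbr : ball x ρ ⊆ ball x r := ball_subset_ball hr.le
  have hp0 : ∀ p ∈ P, p ∈ S ∩ closedBall x ρ₀ := fun p hp =>
    ⟨((C.mem p).1 hp).1, sphere_subset_closedBall ((C.mem p).1 hp).2⟩
  have hT1 : ∀ z ∈ (S ∪ A) \ ball x ρ, z ∈ TT S x ρ₀ ρ P u lam ∪ A := by
    rintro z ⟨h | h, h'⟩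
    · exact Or.inl (Or.inl ⟨h, h'⟩)
    · exact Or.inr h
  have hT2 : ∀ z ∈ S ∩ closedBall x ρ₀, hm x lam z ∈ TT S x ρ₀ ρ P u lam ∪ A := fun z hz =>
    Or.inl (Or.inr (Or.inl ⟨z, hz, rfl⟩))
  have hT3 : ∀ p ∈ P, segment ℝ (hm x lam p) (pe x ρ₀ ρ u p) ⊆ TT S x ρ₀ ρ P u lam ∪ A :=
    fun p hp z hz => Or.inl (Or.inr (Or.inr (mem_biUnion hp hz)))
  obtain ⟨p0, hp0P⟩ := hne
  refine ⟨⟨_, hT2 p0 (hp0 p0 hp0P)⟩, ?_⟩
  rw [isPreconnected_closed_iff]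
  intro t t' ht ht' hcov h1 h2
  rw [nonempty_iff_ne_empty]
  intro hem0
  have hem : ∀ z ∈ TT S x ρ₀ ρ P u lam ∪ A, z ∈ t → z ∈ t' → False := by
    intro z h3 h4 h5
    have : z ∈ (TT S x ρ₀ ρ P u lam ∪ A) ∩ (t ∩ t') := ⟨h3, h4, h5⟩
    rw [hem0] at this
    exact this
  -- every point of the competitor in `t` gives a point of `Z t`
  have key : ∀ t t' : Set V, IsClosed t → IsClosed t' → TT S x ρ₀ ρ P u lam ∪ A ⊆ t ∪ t' →
      (∀ z ∈ TT S x ρ₀ ρ P u lam ∪ A, z ∈ t → z ∈ t' → False) →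
      ((TT S x ρ₀ ρ P u lam ∪ A) ∩ t).Nonempty →
      ((S ∪ A) ∩ ZZ S A x ρ₀ ρ P u lam t).Nonempty := by
    rintro t t' ht ht' hcov hem ⟨w, hw, hwt⟩
    rcases hw with (hw | ⟨z, hz, rfl⟩ | hw) | hw
    · exact ⟨w, Or.inl hw.1, Or.inr (Or.inl ⟨⟨Or.inl hw.1, hw.2⟩, hwt⟩)⟩
    · exact ⟨z, Or.inl hz.1, Or.inl ⟨hz, hwt⟩⟩
    · simp only [mem_iUnion] at hw
      obtain ⟨p, hp, hwp⟩ := hw
      have hpt : hm x lam p ∈ t := by
        rcases hcov (hT2 p (hp0 p hp)) with h | h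
        · exact h
        · exact (no_cross (seg_pre _ _) ht ht' (hT3 p hp) hcov hem hwp hwt
            (left_mem_segment ℝ _ _) h).elim
      exact ⟨p, Or.inl (hp0 p hp).1, Or.inl ⟨hp0 p hp, hpt⟩⟩
    · exact ⟨w, Or.inr hw, Or.inr (Or.inl ⟨⟨Or.inr hw, fun h => L.far w hw (hbr h)⟩, hwt⟩)⟩
  have k1 := key t t' ht ht' hcov hem h1
  have k2 := key t' t ht' ht (hcov.trans (union_comm _ _).le) (fun z h3 h4 h5 => hem z h3 h5 h4) h2
  -- the sets cover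
  have hcX : S ∪ A ⊆ ZZ S A x ρ₀ ρ P u lam t ∪ ZZ S A x ρ₀ ρ P u lam t' := by
    intro z hz
    by_cases hb : z ∈ ball x ρ
    · have hzS : z ∈ S := by
        rcases hz with h | h
        · exact h
        · exact absurd (hbr hb) (L.far z h)
      by_cases hz0 : dist z x ≤ ρ₀
      · have hzC : z ∈ S ∩ closedBall x ρ₀ := ⟨hzS, mem_closedBall.2 hz0⟩
        rcases hcov (hT2 z hzC) with h | h
        · exact Or.inl (Or.inl ⟨hzC, h⟩)
        · exact Or.inr (Or.inl ⟨hzC, h⟩)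
      · push Not at hz0
        obtain ⟨p, hp, s, s0, s1, rfl⟩ := C.cover hρ hn hzS hz0.le (mem_ball.1 hb).le
        rcases hcov (hT2 p (hp0 p hp)) with h | h
        · exact Or.inl (Or.inr (Or.inr ⟨p, hp, h, s, ⟨s0, s1⟩, rfl⟩))
        · exact Or.inr (Or.inr (Or.inr ⟨p, hp, h, s, ⟨s0, s1⟩, rfl⟩))
    · rcases hcov (hT1 z ⟨hz, hb⟩) with h | h
      · exact Or.inl (Or.inr (Or.inl ⟨⟨hz, hb⟩, h⟩))
      · exact Or.inr (Or.inr (Or.inl ⟨⟨hz, hb⟩, h⟩))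
  obtain ⟨z, _, hz1, hz2⟩ := isPreconnected_closed_iff.1 L.conn.isPreconnected _ _
    (zz_closed L.hS hA lam ht) (zz_closed L.hS hA lam ht') hcX k1 k2
  -- mixed cases
  have m1 : ∀ t t' : Set V, (∀ z ∈ TT S x ρ₀ ρ P u lam ∪ A, z ∈ t → z ∈ t' → False) →
      ∀ z, z ∈ (S ∩ closedBall x ρ₀) ∩ hm x lam ⁻¹' t →
      (∃ p ∈ P, hm x lam p ∈ t' ∧ z ∈ arm p (u p) 0 (al x ρ₀ ρ u p)) → False := by
    rintro t t' hem z ⟨hz, hzt⟩ ⟨p, hp, hpt, s, ⟨s0, s1⟩, rfl⟩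
    rcases eq_or_lt_of_le s0 with h | h
    · subst h
      have e1 : (fun s : ℝ => p + s • u p) 0 = p := by simp
      rw [e1] at hzt
      exact hem _ (hT2 p (hp0 p hp)) hzt hpt
    · exact absurd (mem_closedBall.1 hz.2) (not_le.2 (C.piece_gt hp h))
  have m2 : ∀ t t' : Set V, IsClosed t → IsClosed t' → TT S x ρ₀ ρ P u lam ∪ A ⊆ t ∪ t' →
      (∀ z ∈ TT S x ρ₀ ρ P u lam ∪ A, z ∈ t → z ∈ t' → False) →
      ∀ z, z ∈ ((S ∪ A) \ ball x ρ) ∩ t →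
      (∃ p ∈ P, hm x lam p ∈ t' ∧ z ∈ arm p (u p) 0 (al x ρ₀ ρ u p)) → False := by
    rintro t t' ht ht' hcov hem z ⟨⟨hzX, hzb⟩, hzt⟩ ⟨p, hp, hpt, s, ⟨s0, s1⟩, rfl⟩
    rcases eq_or_lt_of_le s1 with h | h
    · subst h
      exact no_cross (seg_pre _ _) ht ht' (hT3 p hp) hcov hem (right_mem_segment ℝ _ _) hzt
        (left_mem_segment ℝ _ _) hpt
    · exact hzb (C.piece_lt hρ hp s0 h)
  have hsep : ∀ p ∈ P, ∀ q ∈ P, ∀ z, z ∈ arm p (u p) 0 (al x ρ₀ ρ u p) →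
      z ∈ arm q (u q) 0 (al x ρ₀ ρ u q) → p = q := by
    rintro p hp q hq z ⟨s, ⟨s0, s1⟩, rfl⟩ ⟨s', ⟨s0', s1'⟩, hs'⟩
    by_contra hpq
    have h3 := C.sep p hp q hq hpq
    have h4 : dist (p + s • u p) p < e := by
      rw [lin_dist (C.lin p hp), abs_of_nonneg s0]
      exact s1.trans_lt (ha p hp)
    have h5 : dist (p + s • u p) q < e := by
      have : p + s • u p = q + s' • u q := hs'.symm
      rw [this, lin_dist (C.lin q hq), abs_of_nonneg s0']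
      exact s1'.trans_lt (ha q hq)
    have := dist_triangle_left p q (p + s • u p)
    linarith
  rcases hz1 with h3 | h3 | h3
  · rcases hz2 with h4 | h4 | h4
    · exact hem _ (hT2 z h3.1) h3.2 h4.2
    · exact h4.1.2 (lt_of_le_of_lt (mem_closedBall.1 h3.1.2) hρ)
    · exact m1 t t' hem z h3 h4
  · rcases hz2 with h4 | h4 | h4
    · exact h3.1.2 (lt_of_le_of_lt (mem_closedBall.1 h4.1.2) hρ)
    · exact hem _ (hT1 z h3.1) h3.2 h4.2
    · exact m2 t t' ht ht' hcov hem z h3 h4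
  · rcases hz2 with h4 | h4 | h4
    · exact m1 t' t (fun z h5 h6 h7 => hem z h5 h7 h6) z h4 h3
    · exact m2 t' t ht' ht (hcov.trans (union_comm _ _).le) (fun z h5 h6 h7 => hem z h5 h7 h6) z
        h4 h3
    · obtain ⟨p, hp, hpt, hzp⟩ := h3
      obtain ⟨q, hq, hqt, hzq⟩ := h4
      have := hsep p hp q hq z hzp hzq
      subst this
      exact hem _ (hT2 p (hp0 p hp)) hpt hqt

/-- the inequality of the competitor -/
theorem comp0 [ProperSpace V] (C : Cf S x ρ₀ P u e) (L : LocAdm A S x r) (hA : IsClosed A)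
    (hne : P.Nonempty) (hρ : ρ₀ < ρ) (hr : ρ < r) (ha : ∀ p ∈ P, al x ρ₀ ρ u p < e)
    (hn : ∀ z ∈ S, |dist z x - ρ₀| ≤ ρ - ρ₀ → ∃ p ∈ P, z ∈ ball p e) {lam : ℝ} (h0 : 0 ≤ lam)
    (h1 : lam * ρ₀ ≤ ρ) :
    μH[1] (S ∩ ball x ρ) ≤ ENNReal.ofReal lam * μH[1] (S ∩ ball x ρ₀)
      + ∑ p ∈ P, edist (hm x lam p) (pe x ρ₀ ρ u p) := by
  classical
  have := Measure.nullSingletonClass_hausdorff V (d := 1) one_pos
  have hbr : ball x ρ ⊆ ball x r := ball_subset_ball hr.le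
  have m1 := L.minim (TT S x ρ₀ ρ P u lam) (tt_closed L.hS lam)
    (C.tt_conn L hA hne hρ hr ha hn) (C.tt_out hρ hr h0 h1)
  have hfin : μH[1] (S ∩ (ball x r \ ball x ρ)) ≠ ∞ :=
    ne_top_of_le_ne_top L.fin (measure_mono (inter_subset_inter_right _ sdiff_subset))
  have m2 : μH[1] (S ∩ (ball x r \ ball x ρ)) + μH[1] (S ∩ ball x ρ) ≤ μH[1] (S ∩ ball x r) := by
    rw [← measure_union (μ := μH[1]) _ (L.hS.measurableSet.inter measurableSet_ball)]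
    · refine measure_mono ?_
      rintro z (h | h)
      · exact ⟨h.1, h.2.1⟩
      · exact ⟨h.1, hbr h.2⟩
    · rw [disjoint_left]
      rintro z h h'
      exact h.2.2 h'.2
  have m3 : μH[1] (TT S x ρ₀ ρ P u lam ∩ ball x r) ≤ μH[1] (S ∩ (ball x r \ ball x ρ))
      + μH[1] (hm x lam '' (S ∩ closedBall x ρ₀)
        ∪ ⋃ p ∈ P, segment ℝ (hm x lam p) (pe x ρ₀ ρ u p)) := by
    refine le_trans (measure_mono ?_) (measure_union_le _ _)
    rintro z ⟨h | h, h'⟩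
    · exact Or.inl ⟨h.1, h', h.2⟩
    · exact Or.inr h
  have m4 : μH[1] (S ∩ closedBall x ρ₀) ≤ μH[1] (S ∩ ball x ρ₀) := by
    have : S ∩ closedBall x ρ₀ ⊆ (S ∩ ball x ρ₀) ∪ (P : Set V) := by
      rintro z ⟨hz, hzb⟩
      by_cases hb : z ∈ ball x ρ₀
      · exact Or.inl ⟨hz, hb⟩
      · right
        refine (C.mem z).2 ⟨hz, ?_⟩
        rw [mem_sphere]
        rw [mem_closedBall] at hzb
        rw [mem_ball, not_lt] at hb
        exact le_antisymm hzb hb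
    refine (measure_mono this).trans ((measure_union_le _ _).trans ?_)
    rw [P.finite_toSet.measure_zero, add_zero]
  have m5 : μH[1] (hm x lam '' (S ∩ closedBall x ρ₀)) ≤
      ENNReal.ofReal lam * μH[1] (S ∩ ball x ρ₀) := by
    have h2 := (hm_lip x h0).hausdorffMeasure_image_le (d := 1) zero_le_one (S ∩ closedBall x ρ₀)
    rw [ENNReal.rpow_one] at h2
    exact h2.trans (mul_le_mul_right m4 _)
  have m6 : μH[1] (⋃ p ∈ P, segment ℝ (hm x lam p) (pe x ρ₀ ρ u p)) ≤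
      ∑ p ∈ P, edist (hm x lam p) (pe x ρ₀ ρ u p) := by
    refine (measure_biUnion_finset_le _ _).trans (le_of_eq ?_)
    exact Finset.sum_congr rfl fun p _ => hausdorffMeasure_segment _ _
  have m7 := (ENNReal.add_le_add_iff_left hfin).1 (m2.trans (m1.trans m3))
  exact m7.trans ((measure_union_le _ _).trans (add_le_add m5 m6))

theorem comp1 [ProperSpace V] (C : Cf S x ρ₀ P u e) (L : LocAdm A S x r) (hA : IsClosed A)
    (hne : P.Nonempty) (hρ : ρ₀ < ρ) (hr : ρ < r) (ha : ∀ p ∈ P, al x ρ₀ ρ u p < e)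
    (hn : ∀ z ∈ S, |dist z x - ρ₀| ≤ ρ - ρ₀ → ∃ p ∈ P, z ∈ ball p e) {lam : ℝ} (h0 : 0 ≤ lam)
    (h1 : lam * ρ₀ ≤ ρ) :
    len S x ρ ≤ lam * len S x ρ₀ + ∑ p ∈ P, dist (hm x lam p) (pe x ρ₀ ρ u p) := by
  have h2 := C.comp0 L hA hne hρ hr ha hn h0 h1
  have hfa : μH[1] (S ∩ ball x ρ₀) ≠ ∞ := L.len_fin (hρ.le.trans hr.le)
  have e1 : ∑ p ∈ P, edist (hm x lam p) (pe x ρ₀ ρ u p) =
      ENNReal.ofReal (∑ p ∈ P, dist (hm x lam p) (pe x ρ₀ ρ u p)) := by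
    rw [ENNReal.ofReal_sum_of_nonneg fun p _ => dist_nonneg]
    exact Finset.sum_congr rfl fun p _ => edist_dist _ _
  have hs0 : 0 ≤ ∑ p ∈ P, dist (hm x lam p) (pe x ρ₀ ρ u p) :=
    Finset.sum_nonneg fun p _ => dist_nonneg
  refine ENNReal.toReal_le_of_le_ofReal (add_nonneg (mul_nonneg h0 (len_nonneg _ _ _)) hs0) ?_
  refine h2.trans (le_of_eq ?_)
  rw [e1, ENNReal.ofReal_add (mul_nonneg h0 (len_nonneg _ _ _)) hs0, ENNReal.ofReal_mul h0]
  unfold len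
  rw [ENNReal.ofReal_toReal hfa]

/-- the distance of the ends of a new segment -/
theorem new_seg (C : Cf S x ρ₀ P u e) (hρ : ρ₀ < ρ) {p : V} (hp : p ∈ P) {η : ℝ} :
    dist (hm x (1 + η) p) (pe x ρ₀ ρ u p) ≤ al x ρ₀ ρ u p
      + (η ^ 2 * ρ₀ ^ 2 - 2 * η * al x ρ₀ ρ u p * inner ℝ (u p) (p - x))
        / (2 * al x ρ₀ ρ u p) := by
  have h0 := C.al_pos hρ hp
  set a := al x ρ₀ ρ u p with haa
  have h1 : ‖p - x‖ = ρ₀ := by
    rw [← dist_eq_norm]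
    exact ((C.mem p).1 hp).2
  have hsq : dist (hm x (1 + η) p) (pe x ρ₀ ρ u p) ^ 2 =
      a ^ 2 + (η ^ 2 * ρ₀ ^ 2 - 2 * η * a * inner ℝ (u p) (p - x)) := by
    have e1 : hm x (1 + η) p - pe x ρ₀ ρ u p = η • (p - x) - a • u p := by
      unfold hm pe
      rw [add_smul, one_smul, ← haa]
      abel
    rw [dist_eq_norm, e1, norm_sub_sq_real, norm_smul, norm_smul, h1, (C.lin p hp).unit,
      inner_smul_left, inner_smul_right, real_inner_comm]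
    simp only [Real.norm_eq_abs, mul_one, sq_abs, mul_pow, conj_trivial]
    ring
  set X := η ^ 2 * ρ₀ ^ 2 - 2 * η * a * inner ℝ (u p) (p - x) with hX
  have h2 : dist (hm x (1 + η) p) (pe x ρ₀ ρ u p) ^ 2 ≤ (a + X / (2 * a)) ^ 2 := by
    rw [hsq]
    have e2 : (a + X / (2 * a)) ^ 2 = a ^ 2 + X + (X / (2 * a)) ^ 2 := by
      field_simp
      ring
    rw [e2]
    linarith [sq_nonneg (X / (2 * a))]
  have h3 : 0 ≤ a + X / (2 * a) := by
    have h4 : 0 ≤ a ^ 2 + X := by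
      rw [← hsq]
      positivity
    have h5 : a + X / (2 * a) = (2 * a ^ 2 + X) / (2 * a) := by
      field_simp
    rw [h5]
    refine div_nonneg ?_ (by linarith)
    nlinarith [sq_nonneg a]
  exact le_of_sq_le_sq h2 h3

/-- **flux** -/
theorem flux [ProperSpace V] (C : Cf S x ρ₀ P u e) (L : LocAdm A S x r) (hA : IsClosed A)
    (hne : P.Nonempty) (hρ : ρ₀ < ρ) (hr : ρ < r) (ha : ∀ p ∈ P, al x ρ₀ ρ u p < e)
    (hn : ∀ z ∈ S, |dist z x - ρ₀| ≤ ρ - ρ₀ → ∃ p ∈ P, z ∈ ball p e) :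
    ∑ p ∈ P, inner ℝ (u p) (p - x) ≤ len S x ρ₀ := by
  have hr0 := C.r0
  have hg := C.grow L hρ hr.le ha
  set K := ∑ p ∈ P, ρ₀ ^ 2 / (2 * al x ρ₀ ρ u p) with hK
  have hK0 : 0 ≤ K := Finset.sum_nonneg fun p hp => by
    have := C.al_pos hρ hp
    positivity
  have key : ∀ η : ℝ, 0 < η → (1 + η) * ρ₀ ≤ ρ →
      ∑ p ∈ P, inner ℝ (u p) (p - x) ≤ len S x ρ₀ + η * K := by
    intro η hη h1
    have h2 := C.comp1 L hA hne hρ hr ha hn (lam := 1 + η) (by linarith) h1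
    have h3 : ∑ p ∈ P, dist (hm x (1 + η) p) (pe x ρ₀ ρ u p) ≤
        ∑ p ∈ P, (al x ρ₀ ρ u p + η ^ 2 * (ρ₀ ^ 2 / (2 * al x ρ₀ ρ u p))
          - η * inner ℝ (u p) (p - x)) := by
      refine Finset.sum_le_sum fun p hp => ?_
      have h4 := C.new_seg hρ hp (η := η)
      have h5 := C.al_pos hρ hp
      refine h4.trans (le_of_eq ?_)
      field_simp
      ring
    rw [Finset.sum_sub_distrib, Finset.sum_add_distrib, ← Finset.mul_sum, ← Finset.mul_sum,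
      ← hK] at h3
    have h6 : η * ∑ p ∈ P, inner ℝ (u p) (p - x) ≤ η * (len S x ρ₀ + η * K) := by nlinarith
    exact le_of_mul_le_mul_left h6 hη
  refine le_of_forall_pos_le_add fun ε hε => ?_
  have hη : 0 < min ((ρ - ρ₀) / ρ₀) (ε / (K + 1)) :=
    lt_min (div_pos (by linarith) hr0) (div_pos hε (by linarith))
  refine (key _ hη ?_).trans ?_
  · have h1 := min_le_left ((ρ - ρ₀) / ρ₀) (ε / (K + 1))
    have h2 := mul_le_mul_of_nonneg_right h1 hr0.le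
    rw [div_mul_cancel₀ _ hr0.ne'] at h2
    linarith
  · have h1 := min_le_right ((ρ - ρ₀) / ρ₀) (ε / (K + 1))
    have h2 := mul_le_mul_of_nonneg_right h1 hK0
    have h3 : ε / (K + 1) * K ≤ ε := by
      rw [div_mul_eq_mul_div, div_le_iff₀ (by linarith)]
      nlinarith
    linarith

end Cf

/-- **the core**, general space -/
theorem core' [ProperSpace V] {A S : Set V} {x : V} {r : ℝ} (L : LocAdm A S x r)
    (hA : IsClosed A) {ρ₀ : ℝ} (h0 : 0 < ρ₀) (hr : ρ₀ < r) {P : Finset V}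
    (hP : ∀ p, p ∈ P ↔ p ∈ S ∩ sphere x ρ₀) (hne : P.Nonempty) {u : V → V}
    (hl : ∀ p ∈ P, ∃ ε, Lin S p (u p) ε) (hc : ∀ p ∈ P, 0 < inner ℝ (u p) (p - x)) :
    ∑ p ∈ P, inner ℝ (u p) (p - x) ≤ len S x ρ₀ ∧
      ∃ δ > 0, ∀ ρ, ρ₀ < ρ → ρ < ρ₀ + δ → ρ < r → ∃ a : V → ℝ,
        (∀ p ∈ P, 0 < a p ∧ a p ^ 2 + 2 * a p * inner ℝ (u p) (p - x) = ρ ^ 2 - ρ₀ ^ 2) ∧
        len S x ρ₀ + ∑ p ∈ P, a p ≤ len S x ρ := by
  obtain ⟨e, C⟩ := cf_exists h0 hP hl hc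
  obtain ⟨δ, hδ, hn⟩ := C.near L.hS hr
  have he := C.e0
  have hrp := L.rpos
  set δ' := min δ (min (e ^ 2 / r) (r - ρ₀)) with hδ'
  have hδ'0 : 0 < δ' := lt_min hδ (lt_min (by positivity) (by linarith))
  have hal : ∀ ρ, ρ₀ < ρ → ρ < ρ₀ + δ' → ∀ p ∈ P, al x ρ₀ ρ u p < e := by
    intro ρ h1 h2 p hp
    refine C.al_lt h1 ?_ hp
    have h3 : δ' ≤ e ^ 2 / r := (min_le_right _ _).trans (min_le_left _ _)
    have h4 : δ' ≤ r - ρ₀ := (min_le_right _ _).trans (min_le_right _ _)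
    have h5 : (ρ - ρ₀) < e ^ 2 / r := by linarith
    rw [lt_div_iff₀ hrp] at h5
    nlinarith
  have hnear : ∀ ρ, ρ₀ < ρ → ρ < ρ₀ + δ' → ∀ z ∈ S, |dist z x - ρ₀| ≤ ρ - ρ₀ →
      ∃ p ∈ P, z ∈ ball p e := by
    intro ρ h1 h2 z hz hzd
    have h3 : δ' ≤ δ := min_le_left _ _
    exact hn z hz (lt_of_le_of_lt hzd (by linarith))
  refine ⟨?_, δ', hδ'0, fun ρ h1 h2 h3 => ?_⟩
  · have h4 : δ' ≤ r - ρ₀ := (min_le_right _ _).trans (min_le_right _ _)
    exact C.flux L hA hne (ρ := ρ₀ + δ' / 2) (by linarith) (by linarith)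
      (hal _ (by linarith) (by linarith)) (hnear _ (by linarith) (by linarith))
  · exact ⟨al x ρ₀ ρ u, fun p hp => ⟨C.al_pos h1 hp, C.al_eq h1 p⟩, C.grow L h1 h3.le
      (hal ρ h1 h2)⟩

/-- **the row `ST_CORE`** -/
theorem core (d : ℕ) : ST_CORE d := fun _ _ _ _ L hA _ h0 hr _ hP hne _ hl hc =>
  core' L hA h0 hr hP hne hl hc

end Pool.Agent.Helper73.ST
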