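import Pool.Agent.H11ST.St3
import Pool.Agent.Helper94.ST.Flux

/-! G2 (MP_665203_co): few tripod points make the set long. -/

open MeasureTheory Metric Set Filter Topology
open scoped ENNReal NNReal

namespace H11ST

section Graph
variable {V : Type*} [NormedAddCommGroup V] [InnerProductSpace ℝ V]

theorem gdist_line {z u : V} (hu : ‖u‖ = 1) (s : ℝ) : dist (z + s • u) z = |s| := by
  rw [dist_eq_norm]
  simp [norm_smul, hu]

/-- an edge: the open segment lies in `S` and avoids `V0` -/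
structure Edg (S : Set V) (V0 : Finset V) (v w : V) : Prop where
  hv : v ∈ V0
  hw : w ∈ V0
  hne : v ≠ w
  seg : ∀ τ : ℝ, 0 < τ → τ < 1 → v + τ • (w - v) ∈ S ∧ v + τ • (w - v) ∉ V0

variable {S : Set V} {V0 : Finset V} {v w v' w' : V}

theorem Edg.symm (h : Edg S V0 v w) : Edg S V0 w v :=
  ⟨h.hw, h.hv, h.hne.symm, fun τ h0 h1 => by
    have := h.seg (1 - τ) (by linarith) (by linarith)
    have e : v + (1 - τ) • (w - v) = w + τ • (v - w) := by module
    rwa [e] at this⟩

/-- the direction of an edge -/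
theorem Edg.dirv (h : Edg S V0 v w) : ∃ (u : V) (l : ℝ), ‖u‖ = 1 ∧ 0 < l ∧ w - v = l • u := by
  have h0 : w - v ≠ 0 := sub_ne_zero.2 h.hne.symm
  have hl : 0 < ‖w - v‖ := norm_pos_iff.2 h0
  refine ⟨‖w - v‖⁻¹ • (w - v), ‖w - v‖, ?_, hl, ?_⟩
  · rw [norm_smul, norm_inv, norm_norm, inv_mul_cancel₀ hl.ne']
  · rw [smul_smul, mul_inv_cancel₀ hl.ne', one_smul]

theorem Edg.param (h : Edg S V0 v w) {τ : ℝ} (h0 : 0 < τ) (h1 : τ < 1) {z u : V} {ε : ℝ}
    (hz : z = v + τ • (w - v)) (hL : Lin S z u ε) :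
    ∃ a b : ℝ, 0 < a ∧ 0 < b ∧ (∀ t : ℝ, -b < t → t < a → z + t • u ∉ V0) ∧
      ((w = z + a • u ∧ v = z + (-b) • u) ∨ (v = z + a • u ∧ w = z + (-b) • u)) := by
  obtain ⟨û, l, hu, hl, hwv⟩ := h.dirv
  have hl1 : 0 < (1 - τ) * l := mul_pos (by linarith) hl
  have hδ : 0 < min ε ((1 - τ) * l) / 2 := by
    have := lt_min hL.pos hl1
    linarith
  have hδ1 : min ε ((1 - τ) * l) / 2 < ε := by
    have := min_le_left ε ((1 - τ) * l)
    linarith [hL.pos]
  have hδ2 : min ε ((1 - τ) * l) / 2 < (1 - τ) * l := by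
    have := min_le_right ε ((1 - τ) * l)
    linarith
  have key : ∀ t : ℝ, z + t • û = v + (τ + t / l) • (w - v) := by
    intro t
    rw [hz, add_smul, ← add_assoc]
    congr 1
    rw [hwv, smul_smul, div_mul_cancel₀ _ hl.ne']
  have hmem : z + (min ε ((1 - τ) * l) / 2) • û ∈ S := by
    rw [key]
    refine (h.seg _ (by positivity) ?_).1
    have : min ε ((1 - τ) * l) / 2 / l < 1 - τ := by
      rw [div_lt_iff₀ hl]
      exact hδ2
    linarith
  have hwz : w = z + ((1 - τ) * l) • û := by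
    rw [key, mul_div_cancel_right₀ _ hl.ne', add_sub_cancel, one_smul, add_sub_cancel]
  have hvz : v = z + (-(τ * l)) • û := by
    rw [key, neg_div, mul_div_cancel_right₀ _ hl.ne', add_neg_cancel, zero_smul, add_zero]
  have havoid : ∀ t : ℝ, -(τ * l) < t → t < (1 - τ) * l → z + t • û ∉ V0 := by
    intro t ht1 ht2
    rw [key]
    refine (h.seg _ ?_ ?_).2
    · have : -τ < t / l := by
        rw [lt_div_iff₀ hl]
        linarith
      linarith
    · have : t / l < 1 - τ := by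
        rw [div_lt_iff₀ hl]
        exact ht2
      linarith
  rcases hL.dir (δ := min ε ((1 - τ) * l) / 2) hu (by rw [abs_of_pos hδ]; exact hδ)
    (by rw [abs_of_pos hδ]; exact hδ1) hmem with e | e
  · subst e
    exact ⟨(1 - τ) * l, τ * l, hl1, by positivity, havoid, Or.inl ⟨hwz, hvz⟩⟩
  · have hu' : u = -û := by rw [e, neg_neg]
    refine ⟨τ * l, (1 - τ) * l, by positivity, hl1, ?_, Or.inr ⟨?_, ?_⟩⟩
    · intro t ht1 ht2
      have := havoid (-t) (by linarith) (by linarith)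
      rw [hu', smul_neg, ← neg_smul]
      exact this
    · rw [hu', smul_neg, ← neg_smul]
      exact hvz
    · rw [hu', smul_neg, ← neg_smul, neg_neg]
      exact hwz

theorem Edg.unique (h : Edg S V0 v w) (h' : Edg S V0 v' w') {τ τ' : ℝ} (h0 : 0 < τ) (h1 : τ < 1)
    (h0' : 0 < τ') (h1' : τ' < 1) {z u : V} {ε : ℝ} (hz : z = v + τ • (w - v))
    (hz' : z = v' + τ' • (w' - v')) (hL : Lin S z u ε) : s(v, w) = s(v', w') := by
  obtain ⟨a, b, ha, hb, hab, hvw⟩ := h.param h0 h1 hz hL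
  obtain ⟨a', b', ha', hb', hab', hvw'⟩ := h'.param h0' h1' hz' hL
  have hpa : z + a • u ∈ V0 := by
    rcases hvw with ⟨e, -⟩ | ⟨e, -⟩
    · rw [← e]; exact h.hw
    · rw [← e]; exact h.hv
  have hpb : z + (-b) • u ∈ V0 := by
    rcases hvw with ⟨-, e⟩ | ⟨-, e⟩
    · rw [← e]; exact h.hv
    · rw [← e]; exact h.hw
  have hpa' : z + a' • u ∈ V0 := by
    rcases hvw' with ⟨e, -⟩ | ⟨e, -⟩
    · rw [← e]; exact h'.hw
    · rw [← e]; exact h'.hv
  have hpb' : z + (-b') • u ∈ V0 := by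
    rcases hvw' with ⟨-, e⟩ | ⟨-, e⟩
    · rw [← e]; exact h'.hv
    · rw [← e]; exact h'.hw
  have e1 : a = a' := by
    rcases lt_trichotomy a a' with h2 | h2 | h2
    · exact absurd hpa (hab' a (by linarith) h2)
    · exact h2
    · exact absurd hpa' (hab a' (by linarith) h2)
  have e2 : b = b' := by
    rcases lt_trichotomy b b' with h2 | h2 | h2
    · exact absurd hpb (hab' (-b) (by linarith) (by linarith))
    · exact h2
    · exact absurd hpb' (hab (-b') (by linarith) (by linarith))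
  subst e1 e2
  rw [Sym2.eq_iff]
  rcases hvw with ⟨p, q⟩ | ⟨p, q⟩ <;> rcases hvw' with ⟨p', q'⟩ | ⟨p', q'⟩
  · exact Or.inl ⟨q.trans q'.symm, p.trans p'.symm⟩
  · exact Or.inr ⟨q.trans q'.symm, p.trans p'.symm⟩
  · exact Or.inr ⟨p.trans p'.symm, q.trans q'.symm⟩
  · exact Or.inl ⟨p.trans p'.symm, q.trans q'.symm⟩

theorem ray (hS : IsCompact S) {p u : V} {ε₀ : ℝ} (hu : ‖u‖ = 1) (hε₀ : 0 < ε₀)
    (hstart : ∀ s : ℝ, 0 < s → s < ε₀ → ∃ ε, Lin S (p + s • u) u ε)
    (hlin : ∀ z ∈ S, z ∉ V0 → ∃ u ε, Lin S z u ε) :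
    ∃ t : ℝ, 0 < t ∧ p + t • u ∈ V0 ∧ ∀ s : ℝ, 0 < s → s < t → p + s • u ∉ V0 ∧ p + s • u ∈ S := by
  have hu0 : u ≠ 0 := by
    intro h
    rw [h, norm_zero] at hu
    exact zero_ne_one hu
  set T : Set ℝ := {t | 0 < t ∧ p + t • u ∈ V0} with hT
  have hfin : T.Finite := by
    have h1 : ((fun t : ℝ => p + t • u) ⁻¹' (V0 : Set V)).Finite := by
      refine V0.finite_toSet.preimage (Function.Injective.injOn ?_)
      intro a b hab
      have h2 : a • u = b • u := add_left_cancel hab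
      exact smul_left_injective ℝ hu0 h2
    exact h1.subset fun t ht => ht.2
  have hne : T.Nonempty := by
    by_contra hemp
    rw [Set.not_nonempty_iff_eq_empty] at hemp
    have hno : ∀ t : ℝ, 0 < t → p + t • u ∉ V0 := by
      intro t ht hmem
      have : t ∈ T := ⟨ht, hmem⟩
      rw [hemp] at this
      exact this
    have hin : ∀ t : ℝ, 0 < t → p + t • u ∈ S := by
      intro t ht
      obtain ⟨ε, h1⟩ := follow hS.isClosed hu hε₀ ht hstart
        (fun s hs0 _ hs => hlin _ hs (hno s hs0)) t ht le_rfl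
      exact h1.z_mem
    obtain ⟨R, hR⟩ := hS.isBounded.subset_closedBall p
    have h2 := hR (hin (|R| + 1) (by positivity))
    rw [mem_closedBall, gdist_line hu, abs_of_pos (by positivity)] at h2
    linarith [le_abs_self R]
  obtain ⟨t, ht, hmin⟩ := Set.exists_min_image T id hfin hne
  refine ⟨t, ht.1, ht.2, fun s hs0 hst => ?_⟩
  have hno : ∀ s' : ℝ, 0 < s' → s' < t → p + s' • u ∉ V0 := by
    intro s' h1 h2 h3
    have := hmin s' ⟨h1, h3⟩
    simp only [id] at this
    linarith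
  refine ⟨hno s hs0 hst, ?_⟩
  obtain ⟨ε, h1⟩ := follow hS.isClosed hu hε₀ hs0 hstart
    (fun s' h1 h2 h3 => hlin _ h3 (hno s' h1 (by linarith))) s hs0 le_rfl
  exact h1.z_mem

theorem on_edge (hS : IsCompact S) (hlin : ∀ z ∈ S, z ∉ V0 → ∃ u ε, Lin S z u ε) {z : V}
    (hz : z ∈ S) (hz0 : z ∉ V0) :
    ∃ (v w : V) (τ : ℝ), Edg S V0 v w ∧ 0 < τ ∧ τ < 1 ∧ z = v + τ • (w - v) := by
  obtain ⟨u, ε, hL⟩ := hlin z hz hz0
  have hst : ∀ {u : V}, Lin S z u ε → ∀ s : ℝ, 0 < s → s < ε → ∃ ε', Lin S (z + s • u) u ε' := by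
    intro u hL s h0 h1
    refine ⟨ε - s, hL.mono (by linarith) ?_⟩
    rw [abs_of_pos h0]
    linarith
  obtain ⟨t₁, h1, m1, a1⟩ := ray hS hL.unit hL.pos (hst hL) hlin
  obtain ⟨t₂, h2, m2, a2⟩ := ray hS hL.neg.unit hL.pos (hst hL.neg) hlin
  have hu0 : u ≠ 0 := by
    intro h
    have := hL.unit
    rw [h, norm_zero] at this
    exact zero_ne_one this
  have hwv : z + t₁ • u - (z + t₂ • (-u)) = (t₁ + t₂) • u := by module
  have htt : 0 < t₁ + t₂ := by linarith
  refine ⟨z + t₂ • (-u), z + t₁ • u, t₂ / (t₁ + t₂), ⟨m2, m1, ?_, ?_⟩, by positivity, ?_, ?_⟩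
  · intro h
    have h3 : (t₁ + t₂) • u = 0 := by rw [← hwv, h, sub_self]
    rcases smul_eq_zero.1 h3 with h4 | h4
    · linarith
    · exact hu0 h4
  · intro τ ht0 ht1
    rw [hwv]
    have e : z + t₂ • (-u) + τ • (t₁ + t₂) • u = z + (-t₂ + τ * (t₁ + t₂)) • u := by module
    rw [e]
    rcases lt_trichotomy (-t₂ + τ * (t₁ + t₂)) 0 with h3 | h3 | h3
    · have h5 : 0 < τ * (t₁ + t₂) := mul_pos ht0 htt
      have h4 := a2 (-(-t₂ + τ * (t₁ + t₂))) (by linarith) (by linarith)
      rw [smul_neg, ← neg_smul, neg_neg] at h4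
      exact ⟨h4.2, h4.1⟩
    · rw [h3, zero_smul, add_zero]
      exact ⟨hz, hz0⟩
    · have h5 : τ * (t₁ + t₂) < 1 * (t₁ + t₂) := mul_lt_mul_of_pos_right ht1 htt
      have h4 := a1 (-t₂ + τ * (t₁ + t₂)) h3 (by linarith)
      exact ⟨h4.2, h4.1⟩
  · rw [div_lt_one htt]
    linarith
  · rw [hwv, smul_smul, div_mul_cancel₀ _ htt.ne']
    module

theorem seg_cases {x y z : V} (hz : z ∈ segment ℝ x y) (h : x = y ∨ Edg S V0 x y) :
    (z = x ∨ z = y) ∨ (Edg S V0 x y ∧ ∃ τ : ℝ, 0 < τ ∧ τ < 1 ∧ z = x + τ • (y - x)) := by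
  rw [segment_eq_image'] at hz
  obtain ⟨τ, ⟨h0, h1⟩, rfl⟩ := hz
  rcases h with rfl | h
  · left; left
    simp
  · rcases h0.eq_or_lt with e | e
    · left; left
      simp [← e]
    · rcases h1.eq_or_lt with e' | e'
      · left; right
        simp [e']
      · exact Or.inr ⟨h, τ, e, e', rfl⟩

open Classical in
/-- the union of the closed edges starting at points with the property `R` -/
noncomputable def PP (S : Set V) (V0 : Finset V) (R : V → Prop) : Set V :=
  ⋃ i ∈ (V0 ×ˢ V0).filter (fun i => R i.1 ∧ (i.1 = i.2 ∨ Edg S V0 i.1 i.2)), segment ℝ i.1 i.2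

theorem PP_closed (S : Set V) (V0 : Finset V) (R : V → Prop) : IsClosed (PP S V0 R) := by
  unfold PP
  refine isClosed_biUnion_finset fun i _ => ?_
  rw [segment_eq_image']
  exact (isCompact_Icc.image (by fun_prop)).isClosed

theorem mem_PP (S : Set V) (V0 : Finset V) (R : V → Prop) (z : V) :
    z ∈ PP S V0 R ↔ ∃ x y, x ∈ V0 ∧ y ∈ V0 ∧ R x ∧ (x = y ∨ Edg S V0 x y) ∧ z ∈ segment ℝ x y := by
  unfold PP
  simp only [mem_iUnion, Finset.mem_filter, Finset.mem_product, exists_prop, Prod.exists]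
  constructor
  · rintro ⟨x, y, ⟨⟨h1, h2⟩, h3, h4⟩, h5⟩
    exact ⟨x, y, h1, h2, h3, h4, h5⟩
  · rintro ⟨x, y, h1, h2, h3, h4, h5⟩
    exact ⟨x, y, ⟨⟨h1, h2⟩, h3, h4⟩, h5⟩

theorem conn_pred (hS : IsCompact S) (hconn : IsPreconnected S) (hVS : ∀ v ∈ V0, v ∈ S)
    (hlin : ∀ z ∈ S, z ∉ V0 → ∃ u ε, Lin S z u ε) (R : V → Prop)
    (hR : ∀ v w, Edg S V0 v w → (R v ↔ R w)) {v w : V} (hv : v ∈ V0) (hw : w ∈ V0) (hRv : R v) :
    R w := by
  by_contra hRw
  have hsing : ∀ (R : V → Prop) (z : V), z ∈ V0 → R z → z ∈ PP S V0 R := by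
    intro R z hz hRz
    exact (mem_PP S V0 R z).2 ⟨z, z, hz, hz, hRz, Or.inl rfl, by simp⟩
  have hcov : S ⊆ PP S V0 R ∪ PP S V0 (fun x => ¬ R x) := by
    intro z hz
    by_cases hz0 : z ∈ V0
    · by_cases hRz : R z
      · exact Or.inl (hsing R z hz0 hRz)
      · exact Or.inr (hsing (fun x => ¬ R x) z hz0 hRz)
    · obtain ⟨x, y, τ, hE, h0, h1, rfl⟩ := on_edge hS hlin hz hz0
      have hseg : x + τ • (y - x) ∈ segment ℝ x y := by
        rw [segment_eq_image']
        exact ⟨τ, ⟨h0.le, h1.le⟩, rfl⟩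
      by_cases hRx : R x
      · exact Or.inl ((mem_PP S V0 R _).2 ⟨x, y, hE.hv, hE.hw, hRx, Or.inr hE, hseg⟩)
      · exact Or.inr ((mem_PP S V0 (fun x => ¬ R x) _).2 ⟨x, y, hE.hv, hE.hw, hRx, Or.inr hE, hseg⟩)
  obtain ⟨z, hzS, hz1, hz2⟩ := (isPreconnected_closed_iff.1 hconn) _ _ (PP_closed S V0 R)
    (PP_closed S V0 fun x => ¬ R x) hcov ⟨v, hVS v hv, hsing R v hv hRv⟩
    ⟨w, hVS w hw, hsing (fun x => ¬ R x) w hw hRw⟩
  obtain ⟨x, y, hx, hy, hRx, hxy, hzxy⟩ := (mem_PP S V0 R z).1 hz1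
  obtain ⟨x', y', hx', hy', hRx', hxy', hzxy'⟩ := (mem_PP S V0 (fun x => ¬ R x) z).1 hz2
  have hRy : R y := by
    rcases hxy with e | e
    · rw [← e]; exact hRx
    · exact (hR _ _ e).1 hRx
  have hRy' : ¬ R y' := by
    rcases hxy' with e | e
    · rw [← e]; exact hRx'
    · exact fun h => hRx' ((hR _ _ e).2 h)
  rcases seg_cases hzxy hxy with h1 | ⟨hE, τ, h0, h1, e1⟩
  · have hRz : R z := by
      rcases h1 with e | e <;> rw [e] <;> assumption
    have hz0 : z ∈ V0 := by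
      rcases h1 with e | e <;> rw [e] <;> assumption
    rcases seg_cases hzxy' hxy' with h2 | ⟨hE', τ', h0', h1', e1'⟩
    · rcases h2 with e | e <;> rw [e] at hRz
      · exact hRx' hRz
      · exact hRy' hRz
    · rw [e1'] at hz0
      exact (hE'.seg τ' h0' h1').2 hz0
  · have hz0 : z ∉ V0 := by
      rw [e1]
      exact (hE.seg τ h0 h1).2
    rcases seg_cases hzxy' hxy' with h2 | ⟨hE', τ', h0', h1', e1'⟩
    · rcases h2 with e | e <;> rw [e] at hz0
      · exact hz0 hx'
      · exact hz0 hy'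
    · obtain ⟨u, ε, hL⟩ := hlin z hzS hz0
      have h2 := hE.unique hE' h0 h1 h0' h1' e1 e1' hL
      rw [Sym2.eq_iff] at h2
      rcases h2 with ⟨e, -⟩ | ⟨-, e⟩
      · rw [e] at hRx
        exact hRx' hRx
      · rw [e] at hRy
        exact hRx' hRy

/-- an edge at a tripod point has one of the three directions -/
theorem edg_tri {y : V} {u : Fin 3 → V} {ε : ℝ} (T : Tri S y u ε) (h : Edg S V0 y w) :
    ∃ (i : Fin 3) (l : ℝ), 0 < l ∧ w = y + l • u i ∧ ∀ s : ℝ, 0 < s → s < l → y + s • u i ∉ V0 := by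
  obtain ⟨û, l, hu, hl, hwv⟩ := h.dirv
  have key : ∀ t : ℝ, y + t • û = y + (t / l) • (w - y) := by
    intro t
    rw [hwv, smul_smul, div_mul_cancel₀ _ hl.ne']
  have hδ : 0 < min ε l / 2 := by
    have := lt_min T.pos hl
    linarith
  have hδ1 : min ε l / 2 < ε := by
    have := min_le_left ε l
    linarith [T.pos]
  have hδ2 : min ε l / 2 < l := by
    have := min_le_right ε l
    linarith
  have hm : y + (min ε l / 2) • û ∈ S ∩ ball y ε := by
    constructor
    · rw [key]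
      exact (h.seg _ (by positivity) (by rw [div_lt_one hl]; exact hδ2)).1
    · rw [mem_ball, gdist_line hu, abs_of_pos hδ]
      exact hδ1
  rw [T.eq] at hm
  obtain ⟨i, s, hs0, -, hs⟩ := hm
  have h1 : (min ε l / 2) • û = s • u i := add_left_cancel hs
  have h2 : min ε l / 2 = s := by
    have := congrArg norm h1
    rw [norm_smul, norm_smul, hu, T.norm i, mul_one, mul_one, Real.norm_of_nonneg hδ.le,
      Real.norm_of_nonneg hs0] at this
    exact this
  rw [← h2] at h1
  have h3 : û = u i := smul_right_injective V hδ.ne' h1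
  refine ⟨i, l, hl, ?_, ?_⟩
  · rw [← h3, ← hwv]
    abel
  · intro t ht0 ht1
    rw [← h3, key]
    exact (h.seg _ (by positivity) (by rw [div_lt_one hl]; exact ht1)).2

end Graph

section Final
variable {d : ℕ}

open Classical in
theorem st_gr (d : ℕ) : ST_GR d := by
  intro S A Y Z s ε hS hconn hfin hs hε hε2 hAne hAS hsep hlin hY hZ
  -- the vertices
  set V0 : Finset (E d) := A ∪ Y ∪ Z with hV0
  have hYA : ∀ y ∈ Y, y ∉ A := fun y hy => (hY y hy).1
  have hYZ : ∀ y ∈ Y, y ∉ Z := fun y hy => (hY y hy).2.1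
  have hVS : ∀ v ∈ V0, v ∈ S := by
    intro v hv
    rw [hV0, Finset.mem_union, Finset.mem_union] at hv
    rcases hv with (h | h) | h
    · exact hAS v h
    · obtain ⟨-, -, u, δ, T⟩ := hY v h
      exact T.y_mem
    · exact (hZ v h).2.1
  have hlin' : ∀ z ∈ S, z ∉ V0 → ∃ u ε, Lin S z u ε := by
    intro z hz hz0
    rw [hV0, Finset.mem_union, Finset.mem_union, not_or, not_or] at hz0
    exact hlin z hz hz0.1.1 hz0.1.2 hz0.2
  -- the quotient map
  have hnear : ∀ z : E d, ∃ a : E d, z ∈ Z → a ∈ A ∧ dist z a < ε * s := by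
    intro z
    by_cases h : z ∈ Z
    · obtain ⟨-, -, a, ha, hd⟩ := hZ z h
      exact ⟨a, fun _ => ⟨ha, hd⟩⟩
    · exact ⟨z, fun h' => absurd h' h⟩
  choose near hnr using hnear
  set f : E d → E d := fun v => if v ∈ Z then near v else v with hf
  have fA : ∀ a ∈ A, f a = a := by
    intro a ha
    have : a ∉ Z := fun h => (hZ a h).1 ha
    simp only [hf, if_neg this]
  have fY : ∀ y ∈ Y, f y = y := by
    intro y hy
    simp only [hf, if_neg (hYZ y hy)]
  have fZ : ∀ z ∈ Z, f z ∈ A := by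
    intro z hz
    simp only [hf, if_pos hz]
    exact (hnr z hz).1
  have fmem : ∀ v ∈ V0, f v ∈ A ∪ Y := by
    intro v hv
    rw [hV0, Finset.mem_union, Finset.mem_union] at hv
    rw [Finset.mem_union]
    rcases hv with (h | h) | h
    · rw [fA v h]; exact Or.inl h
    · rw [fY v h]; exact Or.inr h
    · exact Or.inl (fZ v h)
  have fdist : ∀ v ∈ V0, f v ∈ A → dist v (f v) ≤ ε * s := by
    intro v hv hfv
    have h0 : 0 ≤ ε * s := by positivity
    by_cases hz : v ∈ Z
    · simp only [hf, if_pos hz]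
      exact (hnr v hz).2.le
    · simp only [hf, if_neg hz, dist_self]
      exact h0
  have finY : ∀ v ∈ V0, f v ∈ Y → f v = v := by
    intro v hv hfv
    by_cases hz : v ∈ Z
    · exact absurd (fZ v hz) (hYA _ hfv)
    · simp only [hf, if_neg hz]
  -- the quotient graph
  let ι := {x : E d // x ∈ A ∪ Y}
  let H : SimpleGraph ι :=
    { Adj := fun p q => p ≠ q ∧ ∃ v w, Edg S V0 v w ∧ f v = p.1 ∧ f w = q.1
      symm := ⟨fun p q h => ⟨h.1.symm, by
        obtain ⟨v, w, h1, h2, h3⟩ := h.2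
        exact ⟨w, v, h1.symm, h3, h2⟩⟩⟩
      loopless := ⟨fun p h => h.1 rfl⟩ }
  have hHc : H.Connected := by
    have hne : Nonempty ι := by
      obtain ⟨a, ha⟩ := hAne
      exact ⟨⟨a, Finset.mem_union_left _ ha⟩⟩
    refine (SimpleGraph.connected_iff _).2 ⟨?_, hne⟩
    intro p q
    have hp0 : p.1 ∈ V0 := by
      rw [hV0]
      exact Finset.mem_union_left _ p.2
    have hq0 : q.1 ∈ V0 := by
      rw [hV0]
      exact Finset.mem_union_left _ q.2
    have fid : ∀ x : ι, f x.1 = x.1 := by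
      intro x
      rcases Finset.mem_union.1 x.2 with h | h
      · exact fA _ h
      · exact fY _ h
    have key := conn_pred (V0 := V0) hS hconn.isPreconnected hVS hlin'
      (fun v => ∀ h : f v ∈ A ∪ Y, H.Reachable p ⟨f v, h⟩) (by
        intro v w hE
        have hv := fmem v hE.hv
        have hw := fmem w hE.hw
        have hstep : H.Reachable (⟨f v, hv⟩ : ι) ⟨f w, hw⟩ := by
          by_cases he : (⟨f v, hv⟩ : ι) = ⟨f w, hw⟩
          · rw [he]
          · exact SimpleGraph.Adj.reachable ⟨he, v, w, hE, rfl, rfl⟩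
        constructor
        · intro h _
          exact (h hv).trans hstep
        · intro h _
          exact (h hw).trans hstep.symm) hp0 hq0 (by
        intro h
        have : (⟨f p.1, h⟩ : ι) = p := Subtype.ext (fid p)
        rw [this])
    have h1 := key (by rw [fid]; exact q.2)
    have h2 : (⟨f q.1, by rw [fid]; exact q.2⟩ : ι) = q := Subtype.ext (fid q)
    rwa [h2] at h1
  -- counting
  have hcard : A.card + Y.card ≤ H.edgeFinset.card + 1 := by
    have h1 := hHc.card_vert_le_card_edgeSet_add_one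
    have h2 : Nat.card ι = A.card + Y.card := by
      rw [Nat.card_eq_fintype_card, Fintype.card_coe]
      exact Finset.card_union_of_disjoint (Finset.disjoint_left.2 fun a ha hy => hYA a hy ha)
    have h3 : Nat.card H.edgeSet = H.edgeFinset.card := by
      rw [Nat.card_eq_fintype_card, ← SimpleGraph.edgeFinset_card]
    rw [h2, h3] at h1
    exact h1
  have hdeg : ∀ y : ι, y.1 ∈ Y → H.degree y ≤ 3 := by
    intro y hy
    obtain ⟨-, -, u, δ, T⟩ := hY y.1 hy
    have h1 : ∀ q : ι, H.Adj y q → ∃ w, Edg S V0 y.1 w ∧ f w = q.1 := by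
      rintro q ⟨-, v, w, hE, h2, h3⟩
      have : v = y.1 := by
        rw [← h2]
        exact (finY v hE.hv (by rw [h2]; exact hy)).symm
      rw [this] at hE
      exact ⟨w, hE, h3⟩
    have h2 : ∀ q : ι, ∃ (i : Fin 3), H.Adj y q → ∃ (w : E d) (l : ℝ), f w = q.1 ∧ w ∈ V0 ∧ 0 < l ∧
        w = y.1 + l • u i ∧ ∀ s : ℝ, 0 < s → s < l → y.1 + s • u i ∉ V0 := by
      intro q
      by_cases hq : H.Adj y q
      · obtain ⟨w, hE, hw⟩ := h1 q hq
        obtain ⟨i, l, h3, h4, h5⟩ := edg_tri T hE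
        exact ⟨i, fun _ => ⟨w, l, hw, hE.hw, h3, h4, h5⟩⟩
      · exact ⟨0, fun h => absurd h hq⟩
    choose g hg using h2
    rw [← SimpleGraph.card_neighborFinset_eq_degree]
    have h3 : (H.neighborFinset y).card ≤ (Finset.univ : Finset (Fin 3)).card := by
      refine Finset.card_le_card_of_injOn g (fun _ _ => Finset.mem_univ _) ?_
      intro q hq q' hq' hgg
      rw [Finset.mem_coe, SimpleGraph.mem_neighborFinset] at hq hq'
      obtain ⟨w, l, e1, e2, e3, e4, e5⟩ := hg q hq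
      obtain ⟨w', l', e1', e2', e3', e4', e5'⟩ := hg q' hq'
      rw [← hgg] at e4' e5'
      have hll : l = l' := by
        rcases lt_trichotomy l l' with h | h | h
        · exfalso
          rw [e4] at e2
          exact e5' l e3 h e2
        · exact h
        · exfalso
          rw [e4'] at e2'
          exact e5 l' e3' h e2'
      apply Subtype.ext
      rw [← e1, ← e1', e4, e4', hll]
    simpa using h3
  set EE := H.edgeFinset.filter (fun e => ∀ x ∈ e, (x : ι).1 ∈ A) with hEE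
  have hcov : H.edgeFinset ⊆ EE ∪ ((Finset.univ : Finset ι).filter (fun y => y.1 ∈ Y)).biUnion
      (fun y => H.incidenceFinset y) := by
    intro e he
    rw [Finset.mem_union]
    by_cases h : ∀ x ∈ e, (x : ι).1 ∈ A
    · left
      rw [hEE, Finset.mem_filter]
      exact ⟨he, h⟩
    · right
      push Not at h
      obtain ⟨x, hx, hxA⟩ := h
      rw [Finset.mem_biUnion]
      refine ⟨x, ?_, ?_⟩
      · rw [Finset.mem_filter]
        refine ⟨Finset.mem_univ _, ?_⟩
        rcases Finset.mem_union.1 x.2 with h | h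
        · exact absurd h hxA
        · exact h
      · rw [SimpleGraph.mem_incidenceFinset]
        exact ⟨SimpleGraph.mem_edgeFinset.1 he, hx⟩
  have hEEcard : A.card + Y.card ≤ EE.card + 3 * Y.card + 1 := by
    have h1 := Finset.card_le_card hcov
    have h2 := Finset.card_union_le EE
      (((Finset.univ : Finset ι).filter (fun y => y.1 ∈ Y)).biUnion (fun y => H.incidenceFinset y))
    have h3 : (((Finset.univ : Finset ι).filter (fun y => y.1 ∈ Y)).biUnion
        (fun y => H.incidenceFinset y)).card ≤ Y.card * 3 := by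
      refine (Finset.card_biUnion_le_card_mul _ _ 3 ?_).trans ?_
      · intro y hy
        rw [SimpleGraph.card_incidenceFinset_eq_degree]
        exact hdeg y (Finset.mem_filter.1 hy).2
      · refine Nat.mul_le_mul_right 3 ?_
        refine Finset.card_le_card_of_injOn (fun y : ι => y.1) ?_ ?_
        · intro y hy
          exact (Finset.mem_filter.1 (Finset.mem_coe.1 hy)).2
        · intro y _ y' _ h
          exact Subtype.ext h
    omega
  -- one actual edge for each
  have hex : ∀ e : Sym2 ι, ∃ vw : E d × E d, e ∈ EE → Edg S V0 vw.1 vw.2 ∧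
      Sym2.map Subtype.val e = s(f vw.1, f vw.2) ∧ f vw.1 ∈ A ∧ f vw.2 ∈ A ∧ f vw.1 ≠ f vw.2 := by
    intro e
    by_cases he : e ∈ EE
    · induction e using Sym2.ind with
      | _ p q =>
        rw [hEE, Finset.mem_filter] at he
        obtain ⟨h1, h2⟩ := he
        rw [SimpleGraph.mem_edgeFinset, SimpleGraph.mem_edgeSet] at h1
        obtain ⟨hpq, v, w, hE, h3, h4⟩ := h1
        refine ⟨(v, w), fun _ => ⟨hE, ?_, ?_, ?_, ?_⟩⟩
        · rw [Sym2.map_pair_eq, h3, h4]
        · rw [h3]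
          exact h2 p (Sym2.mem_mk_left p q)
        · rw [h4]
          exact h2 q (Sym2.mem_mk_right p q)
        · rw [h3, h4]
          exact fun h => hpq (Subtype.ext h)
    · exact ⟨(0, 0), fun h => absurd h he⟩
  choose g hg using hex
  set pc : Sym2 ι → Set (E d) := fun e => segment ℝ (g e).1 (g e).2 \ {(g e).1, (g e).2} with hpc
  have hpcm : ∀ e, MeasurableSet (pc e) := by
    intro e
    refine MeasurableSet.diff ?_ ?_
    · exact (seg_closed _ _).measurableSet
    · exact ((Set.finite_singleton _).insert _).measurableSet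
  have hpcz : ∀ e ∈ EE, ∀ z ∈ pc e, ∃ τ : ℝ, 0 < τ ∧ τ < 1 ∧ z = (g e).1 + τ • ((g e).2 - (g e).1) := by
    intro e he z hz
    obtain ⟨hE, -⟩ := hg e he
    rcases seg_cases hz.1 (Or.inr hE) with h | ⟨-, h⟩
    · exact absurd (by simpa using h) hz.2
    · exact h
  have hdisj : Set.PairwiseDisjoint (EE : Set (Sym2 ι)) pc := by
    intro e he e' he' hne
    rw [Function.onFun, Set.disjoint_left]
    intro z hz hz'
    obtain ⟨τ, h0, h1, e1⟩ := hpcz e he z hz
    obtain ⟨τ', h0', h1', e1'⟩ := hpcz e' he' z hz'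
    obtain ⟨hE, hm, -⟩ := hg e he
    obtain ⟨hE', hm', -⟩ := hg e' he'
    obtain ⟨k1, k2⟩ := hE.seg τ h0 h1
    rw [← e1] at k1 k2
    obtain ⟨u, δ, hL⟩ := hlin' z k1 k2
    have h2 := hE.unique hE' h0 h1 h0' h1' e1 e1' hL
    have h3 : s(f (g e).1, f (g e).2) = s(f (g e').1, f (g e').2) := by
      have := congrArg (Sym2.map f) h2
      rwa [Sym2.map_pair_eq, Sym2.map_pair_eq] at this
    rw [← hm, ← hm'] at h3
    exact hne (Sym2.map.injective Subtype.val_injective h3)
  have hlen : ∀ e ∈ EE, ENNReal.ofReal ((1 - 2 * ε) * s) ≤ μH[1] (pc e) := by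
    intro e he
    obtain ⟨hE, -, hA1, hA2, hne⟩ := hg e he
    have h1 : μH[1] (pc e) = edist (g e).1 (g e).2 := by
      rw [hpc]
      simp only
      rw [measure_diff_null, hausdorffMeasure_segment]
      exact fin_measure_zero ((Set.finite_singleton _).insert _)
    rw [h1, edist_dist]
    apply ENNReal.ofReal_le_ofReal
    have h2 := hsep _ hA1 _ hA2 hne
    have h3 := fdist _ hE.hv hA1
    have h4 := fdist _ hE.hw hA2
    have h5 : dist (f (g e).1) (f (g e).2) ≤ dist (f (g e).1) (g e).1 + dist (g e).1 (g e).2 +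
        dist (g e).2 (f (g e).2) := dist_triangle4 _ _ _ _
    rw [dist_comm (f (g e).1) (g e).1] at h5
    linarith
  have hsub : (⋃ e ∈ EE, pc e) ⊆ S := by
    intro z hz
    simp only [mem_iUnion, exists_prop] at hz
    obtain ⟨e, he, hz⟩ := hz
    obtain ⟨τ, h0, h1, e1⟩ := hpcz e he z hz
    rw [e1]
    exact ((hg e he).1.seg τ h0 h1).1
  have hmain : (EE.card : ℝ≥0∞) * ENNReal.ofReal ((1 - 2 * ε) * s) ≤ μH[1] S := by
    calc (EE.card : ℝ≥0∞) * ENNReal.ofReal ((1 - 2 * ε) * s)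
        = ∑ _e ∈ EE, ENNReal.ofReal ((1 - 2 * ε) * s) := by
          rw [Finset.sum_const, nsmul_eq_mul]
      _ ≤ ∑ e ∈ EE, μH[1] (pc e) := Finset.sum_le_sum hlen
      _ = μH[1] (⋃ e ∈ EE, pc e) := (measure_biUnion_finset hdisj fun e _ => hpcm e).symm
      _ ≤ μH[1] S := measure_mono hsub
  have hpos : 0 ≤ (1 - 2 * ε) * s := mul_nonneg (by linarith) hs.le
  have hreal : (EE.card : ℝ) * ((1 - 2 * ε) * s) ≤ (μH[1] S).toReal := by
    have h1 := ENNReal.toReal_mono hfin hmain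
    rw [ENNReal.toReal_mul, ENNReal.toReal_natCast, ENNReal.toReal_ofReal hpos] at h1
    exact h1
  refine le_trans (mul_le_mul_of_nonneg_right ?_ hpos) hreal
  have h1 : ((A.card + Y.card : ℕ) : ℝ) ≤ ((EE.card + 3 * Y.card + 1 : ℕ) : ℝ) := by
    exact_mod_cast hEEcard
  push_cast at h1
  linarith

end Final

end H11ST
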